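import Pool.Agent.W223.RB.Stms

/-!
# BPRT: a light set
-/

set_option autoImplicit false

namespace Pool.Agent.W196.RB

/-- the colouring condition -/
def Col (P : Finset ℕ) (π : ℕ → ℝ) (τ : ℝ) (k : ℕ) : Prop :=
  ∃ f : ℕ → ℕ, (∀ p ∈ P, f p < k) ∧ ∀ c, ∑ p ∈ P with f p = c, π p ≤ τ

theorem col_step {P : Finset ℕ} {π : ℕ → ℝ} {τ : ℝ} {k : ℕ} (hπ : ∀ p ∈ P, 0 ≤ π p)
    {f : ℕ → ℕ} (hf : ∀ p ∈ P, f p < k) (hc : ∀ c, ∑ p ∈ P with f p = c, π p ≤ τ)
    {c c' : ℕ} (h1 : c < c') (h2 : c' < k)
    (h3 : (∑ p ∈ P with f p = c, π p) + (∑ p ∈ P with f p = c', π p) ≤ τ) :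
    Col P π τ (k - 1) := by
  refine ⟨fun p => if f p = c' then c else if f p = k - 1 then c' else f p, ?_, ?_⟩
  · intro p hp
    have := hf p hp
    dsimp only
    split_ifs <;> omega
  · intro b
    by_cases hb : b = c
    · subst hb
      refine le_trans ?_ h3
      have hd : Disjoint (P.filter fun p => f p = b) (P.filter fun p => f p = c') := by
        rw [Finset.disjoint_filter]
        intro p _ h4 h5
        omega
      rw [← Finset.sum_union hd]
      refine Finset.sum_le_sum_of_subset_of_nonneg ?_ ?_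
      · intro p hp
        rw [Finset.mem_filter] at hp
        rw [Finset.mem_union, Finset.mem_filter, Finset.mem_filter]
        have h4 := hp.2
        dsimp only at h4
        split_ifs at h4 with h5 h6
        · exact Or.inr ⟨hp.1, h5⟩
        · omega
        · exact Or.inl ⟨hp.1, h4⟩
      · intro p hp _
        rw [Finset.mem_union, Finset.mem_filter, Finset.mem_filter] at hp
        rcases hp with hp | hp
        · exact hπ p hp.1
        · exact hπ p hp.1
    · refine le_trans ?_ (hc (if b = c' then k - 1 else b))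
      refine Finset.sum_le_sum_of_subset_of_nonneg ?_ ?_
      · intro p hp
        rw [Finset.mem_filter] at hp ⊢
        refine ⟨hp.1, ?_⟩
        have h4 := hp.2
        dsimp only at h4
        split_ifs at h4 ⊢ <;> omega
      · intro p hp _
        rw [Finset.mem_filter] at hp
        exact hπ p hp.1

theorem col_exists {P : Finset ℕ} {π : ℕ → ℝ} {τ : ℝ} (hτ : 0 < τ) (h : ∀ p ∈ P, π p ≤ τ) :
    ∃ k, Col P π τ k := by
  refine ⟨P.sup id + 1, id, fun p hp => Nat.lt_succ_of_le (Finset.le_sup (f := id) hp), ?_⟩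
  intro c
  have e : (P.filter fun p => id p = c) = if c ∈ P then {c} else ∅ := by
    simp only [id]
    exact Finset.filter_eq' P c
  rw [e]
  split_ifs with hc
  · rw [Finset.sum_singleton]
    exact h c hc
  · rw [Finset.sum_empty]
    exact hτ.le

theorem col_five {P : Finset ℕ} {π : ℕ → ℝ} {τ : ℝ} (hτ : 0 < τ) (hπ : ∀ p ∈ P, 0 ≤ π p)
    (h : ∀ p ∈ P, π p ≤ τ) (hs : ∑ p ∈ P, π p ≤ 5 / 2 * τ) : Col P π τ 5 := by
  classical
  have hex := col_exists hτ h
  obtain ⟨f, hf, hc⟩ := Nat.find_spec hex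
  by_cases hk : Nat.find hex ≤ 5
  · exact ⟨f, fun p hp => (hf p hp).trans_le hk, hc⟩
  · exfalso
    push Not at hk
    have hpair : ∀ c c' : ℕ, c < c' → c' < Nat.find hex →
        τ < (∑ p ∈ P with f p = c, π p) + (∑ p ∈ P with f p = c', π p) := by
      intro c c' h1 h2
      by_contra h3
      push Not at h3
      exact Nat.find_min hex (by omega) (col_step hπ hf hc h1 h2 h3)
    have htot : ∑ c ∈ Finset.range (Nat.find hex), ∑ p ∈ P with f p = c, π p = ∑ p ∈ P, π p :=
      Finset.sum_fiberwise_of_maps_to (fun p hp => Finset.mem_range.2 (hf p hp)) _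
    have h6 : ∑ c ∈ Finset.range 6, ∑ p ∈ P with f p = c, π p ≤
        ∑ c ∈ Finset.range (Nat.find hex), ∑ p ∈ P with f p = c, π p := by
      refine Finset.sum_le_sum_of_subset_of_nonneg ?_ ?_
      · exact Finset.range_subset_range.2 hk
      · intro c _ _
        exact Finset.sum_nonneg fun p hp => hπ p (Finset.mem_filter.1 hp).1
    simp only [Finset.sum_range_succ, Finset.sum_range_zero, zero_add] at h6
    have a1 := hpair 0 1 (by omega) (by omega)
    have a2 := hpair 2 3 (by omega) (by omega)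
    have a3 := hpair 4 5 (by omega) (by omega)
    rw [htot] at h6
    linarith

/-- BPRT -/
theorem tBPRT : Pool.Agent.W223.RB.StmtBPRT := by
  intro P θ π τ hτ hθ hπ h hs
  obtain ⟨f, hf, hc⟩ := col_five hτ hπ h hs
  have htot : ∑ c ∈ Finset.range 5, ∑ p ∈ P with f p = c, θ p = ∑ p ∈ P, θ p :=
    Finset.sum_fiberwise_of_maps_to (fun p hp => Finset.mem_range.2 (hf p hp)) _
  have h5 : ∑ _c ∈ Finset.range 5, 1 / 5 * ∑ p ∈ P, θ p ≤
      ∑ c ∈ Finset.range 5, ∑ p ∈ P with f p = c, θ p := by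
    rw [htot, Finset.sum_const, Finset.card_range]
    simp only [nsmul_eq_mul]
    push_cast
    linarith
  obtain ⟨c, _, hc5⟩ := Finset.exists_le_of_sum_le (by simp) h5
  exact ⟨P.filter fun p => f p = c, Finset.filter_subset _ _, hc c, hc5⟩

end Pool.Agent.W196.RB
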